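import Mathlib
import Pool.Agent.helper68.AM.SpecX

/-! Project sl: XP, a bounded perturbation of the weight. -/

set_option autoImplicit false

namespace AM

theorem XP : XP_stmt := by
  intro f f' C ⟨hfin, b, K, hb, hK⟩ hff
  set D : ℝ := |C| with hD
  have hD0 : 0 ≤ D := abs_nonneg C
  have hfd : ∀ i, |f' i - f i| ≤ D := fun i => (hff i).trans (le_abs_self C)
  have hsub1 : ∀ R, {i : Ix | f' i ≤ R} ⊆ {i : Ix | f i ≤ R + D} := by
    intro R i hi
    have h1 := abs_le.mp (hfd i)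
    have h2 : f' i ≤ R := hi
    show f i ≤ R + D
    linarith [h1.1]
  have hsub2 : ∀ R, {i : Ix | f i ≤ R - D} ⊆ {i : Ix | f' i ≤ R} := by
    intro R i hi
    have h1 := abs_le.mp (hfd i)
    have h2 : f i ≤ R - D := hi
    show f' i ≤ R
    linarith [h1.2]
  have hfin' : ∀ R, {i : Ix | f' i ≤ R}.Finite := fun R => (hfin (R + D)).subset (hsub1 R)
  have hK0 : 0 ≤ K := by
    have := (abs_nonneg _).trans (hK 1 le_rfl)
    linarith
  refine ⟨hfin', b, 2 * b * D + b * D ^ 2 + K + K * D + b * (1 + D), hb, fun R hR => ?_⟩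
  have hR0 : 0 ≤ R := by linarith
  have hup : (({i : Ix | f' i ≤ R}.ncard : ℝ)) ≤ b * (R + D) ^ 2 + K * (R + D) := by
    have h1 : (({i : Ix | f' i ≤ R}.ncard : ℝ)) ≤ (({i : Ix | f i ≤ R + D}.ncard : ℝ)) := by
      exact_mod_cast Set.ncard_le_ncard (hsub1 R) (hfin (R + D))
    have h2 := (abs_le.mp (hK (R + D) (by linarith))).2
    linarith
  have hlow : b * R ^ 2 - (2 * b * D + K + b * (1 + D)) * R ≤ (({i : Ix | f' i ≤ R}.ncard : ℝ)) := by
    by_cases h : 1 ≤ R - D
    · have h1 : (({i : Ix | f i ≤ R - D}.ncard : ℝ)) ≤ (({i : Ix | f' i ≤ R}.ncard : ℝ)) := by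
        exact_mod_cast Set.ncard_le_ncard (hsub2 R) (hfin' R)
      have h2 := (abs_le.mp (hK (R - D) h)).1
      have h3 : 0 ≤ b * D ^ 2 + K * D := by positivity
      have h4 : 0 ≤ b * (1 + D) * R := by positivity
      nlinarith
    · have h1 : (0 : ℝ) ≤ (({i : Ix | f' i ≤ R}.ncard : ℝ)) := Nat.cast_nonneg _
      have h2 : R ≤ 1 + D := by linarith
      have h3 : b * R * R ≤ b * R * (1 + D) := mul_le_mul_of_nonneg_left h2 (by positivity)
      have h4 : 0 ≤ (2 * b * D + K) * R := by positivity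
      nlinarith
  rw [abs_le]
  constructor
  · have h3 : 0 ≤ (b * D ^ 2 + K * D) * R := by positivity
    nlinarith
  · have h1 : D * 1 ≤ D * R := mul_le_mul_of_nonneg_left hR hD0
    have h2 : K * (D * 1) ≤ K * (D * R) := mul_le_mul_of_nonneg_left h1 hK0
    have h3 : b * D ^ 2 * 1 ≤ b * D ^ 2 * R := mul_le_mul_of_nonneg_left hR (by positivity)
    have h4 : 0 ≤ b * (1 + D) * R := by positivity
    nlinarith

end AM
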